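import Pool.Agent.H752.KM.Stubs

/-!
# Task K3 (project KM): from hit patterns to the random oracle
-/

set_option autoImplicit false

namespace Pool.Agent.H431R2.KM

open Pool.Agent.H752.KM Pool.Agent.NPC Pool.Agent.H620R2.Gauge MeasureTheory Finset

/-! ### Step 1: resampling -/

section flip
variable {κ : Type} (q : κ → List Bool)

open Classical in
/-- overwrite -/
noncomputable def ovr (B : Oracle) (v : κ → Bool) : Oracle := fun y =>
  if h : ∃ k, q k = y then v h.choose else B y

open Classical in
/-- flip -/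
noncomputable def flp (h : κ → Bool) (y : List Bool) (b : Bool) : Bool :=
  if hy : ∃ k, q k = y then xor b (h hy.choose) else b

/-- flip an oracle -/
noncomputable def flpO (h : κ → Bool) (B : Oracle) : Oracle := fun y => flp q h y (B y)

theorem flp_meas (h : κ → Bool) (y : List Bool) : Measurable (flp q h y) := measurable_of_countable _

theorem coin_xor (c : Bool) : coinM.map (fun b => xor b c) = coinM := by
  have hm : Measurable (fun b : Bool => xor b c) := measurable_of_countable _
  refine Measure.ext_of_singleton fun b => ?_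
  rw [Measure.map_apply hm (MeasurableSet.singleton _)]
  have : (fun b : Bool => xor b c) ⁻¹' {b} = {xor b c} := by
    ext x
    simp only [Set.mem_preimage, Set.mem_singleton_iff]
    cases x <;> cases b <;> cases c <;> simp
  rw [this, coinM_singleton, coinM_singleton]

theorem flp_map (h : κ → Bool) (y : List Bool) : coinM.map (flp q h y) = coinM := by
  by_cases hy : ∃ k, q k = y
  · have : flp q h y = fun b => xor b (h hy.choose) := by
      funext b; simp [flp, hy]
    rw [this, coin_xor]
  · have : flp q h y = id := by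
      funext b; simp [flp, hy]
    rw [this, Measure.map_id]

theorem flpO_map (h : κ → Bool) : ranO.map (flpO q h) = ranO := by
  unfold ranO
  have := Measure.infinitePi_map_pi (μ := fun _ : List Bool => coinM) (Y := fun _ => Bool)
    (f := fun y => flp q h y) (fun y => flp_meas q h y)
  have e : (flpO q h) = (fun (x : List Bool → Bool) (y : List Bool) => flp q h y (x y)) := rfl
  rw [e, this]
  congr 1
  funext y
  exact flp_map q h y

theorem flpO_meas (h : κ → Bool) : Measurable (flpO q h) := by
  refine measurable_pi_lambda _ fun y => ?_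
  exact (flp_meas q h y).comp (measurable_pi_apply y)

theorem flpO_eq (h : κ → Bool) (B : Oracle) :
    flpO q h B = ovr q B (fun k => xor (B (q k)) (h k)) := by
  funext y
  unfold flpO flp ovr
  by_cases hy : ∃ k, q k = y
  · rw [dif_pos hy, dif_pos hy]
    show xor (B y) _ = xor (B (q hy.choose)) _
    rw [hy.choose_spec]
  · rw [dif_neg hy, dif_neg hy]

open Classical in
theorem resample [Fintype κ] [DecidableEq κ] (E : Set Oracle) (hE : MeasurableSet E) (β : ENNReal)
    (hβ : ∀ B, ((univ.filter fun v : κ → Bool => ovr q B v ∈ E).card : ENNReal) ≤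
      β * Fintype.card (κ → Bool)) : ranO E ≤ β := by
  have h1 : ∀ h : κ → Bool, ranO E = ∫⁻ B, (if flpO q h B ∈ E then (1 : ENNReal) else 0) ∂ranO := by
    intro h
    have : ranO E = ranO ((flpO q h) ⁻¹' E) := by
      rw [← Measure.map_apply (flpO_meas q h) hE, flpO_map]
    rw [this, ← lintegral_indicator_one (flpO_meas q h hE)]
    rfl
  have h2 : ∑ h : κ → Bool, ranO E = ∫⁻ B, ∑ h : κ → Bool, (if flpO q h B ∈ E then (1 : ENNReal) else 0)
      ∂ranO := by
    rw [lintegral_finsetSum]
    · exact sum_congr rfl fun h _ => h1 h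
    · intro h _
      exact Measurable.ite (flpO_meas q h hE) measurable_const measurable_const
  have h3 : ∀ B, ∑ h : κ → Bool, (if flpO q h B ∈ E then (1 : ENNReal) else 0) ≤
      β * Fintype.card (κ → Bool) := by
    intro B
    refine le_trans (le_of_eq ?_) (hβ B)
    rw [Finset.sum_boole]
    congr 1
    refine Finset.card_bij (fun h _ => fun k => xor (B (q k)) (h k)) ?_ ?_ ?_
    · intro h hh
      simp only [mem_filter, mem_univ, true_and] at hh ⊢
      rwa [← flpO_eq q]
    · intro h _ h' _ hh
      funext k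
      have := congrFun hh k
      simpa using this
    · intro v hv
      refine ⟨fun k => xor (B (q k)) (v k), ?_, ?_⟩
      · simp only [mem_filter, mem_univ, true_and] at hv ⊢
        rw [flpO_eq q]
        simpa [← Bool.xor_assoc] using hv
      · funext k
        simp
  have h4 : (Fintype.card (κ → Bool) : ENNReal) * ranO E ≤ β * Fintype.card (κ → Bool) := by
    calc (Fintype.card (κ → Bool) : ENNReal) * ranO E = ∑ h : κ → Bool, ranO E := by
          simp [Finset.card_univ]
      _ = _ := h2
      _ ≤ ∫⁻ B, (β * Fintype.card (κ → Bool)) ∂ranO := lintegral_mono h3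
      _ = _ := by simp
  have h5 : (Fintype.card (κ → Bool) : ENNReal) ≠ 0 := by
    simp
  have h6 : (Fintype.card (κ → Bool) : ENNReal) ≠ ⊤ := ENNReal.natCast_ne_top _
  rw [mul_comm] at h4
  exact (ENNReal.mul_le_mul_iff_left h5 h6).mp h4

end flip

/-! ### Step 2: mixtures -/

section mix

/-- the push forward of a product weight -/
theorem push {ι : Type} [Fintype ι] [DecidableEq ι] {Ω V : ι → Type} [∀ i, Fintype (Ω i)]
    [∀ i, DecidableEq (Ω i)] [∀ i, Fintype (V i)] [∀ i, DecidableEq (V i)] (f : ∀ i, Ω i → V i)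
    (W : ∀ i, Ω i → ℝ) (G : (∀ i, V i) → ℝ) :
    ∑ ω : ∀ i, Ω i, (∏ i, W i (ω i)) * G (fun i => f i (ω i)) =
      ∑ v : ∀ i, V i, (∏ i, ∑ x ∈ univ.filter (fun x => f i x = v i), W i x) * G v := by
  classical
  rw [← Finset.sum_fiberwise (s := univ) (g := fun (ω : ∀ i, Ω i) => fun i => f i (ω i))]
  refine sum_congr rfl fun v _ => ?_
  rw [Finset.prod_univ_sum, sum_mul]
  refine Finset.sum_congr ?_ ?_
  · ext ω
    simp [Fintype.mem_piFinset, funext_iff]
  · intro ω hω
    congr 2
    rw [Fintype.mem_piFinset] at hω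
    funext i
    exact (mem_filter.mp (hω i)).2

theorem mix {ι : Type} [Fintype ι] [DecidableEq ι] {V : ι → Type}
    [∀ i, Fintype (V i)] [∀ i, DecidableEq (V i)] (H : ∀ i, V i → Prop) [∀ i, DecidablePred (H i)]
    (G : (∀ i, V i) → ℝ) (β : ℝ) (p : ι → ℝ)
    (hp : ∀ i, p i = ((univ.filter (H i)).card : ℝ) / Fintype.card (V i))
    (h1 : ∀ i, ∃ x, H i x) (h0 : ∀ i, ∃ x, ¬ H i x)
    (hG : ∀ a b : ∀ i, V i, (∀ i, ¬ H i (a i)) → (∀ i, H i (b i)) →
      ∑ η : ι → Bool, (∏ i, (if η i then p i else 1 - p i)) *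
        G (fun i => if η i then b i else a i) ≤ β) :
    ∑ v, G v ≤ β * ∏ i, (Fintype.card (V i) : ℝ) := by
  classical
  set n1 : ι → ℝ := fun i => ((univ.filter (H i)).card : ℝ) with hn1
  set n0 : ι → ℝ := fun i => ((univ.filter (fun x => ¬ H i x)).card : ℝ) with hn0
  have p1 : ∀ i, 0 < n1 i := by
    intro i
    obtain ⟨x, hx⟩ := h1 i
    have : 0 < (univ.filter (H i)).card := card_pos.mpr ⟨x, by simp [hx]⟩
    simp only [hn1]; exact_mod_cast this
  have p0 : ∀ i, 0 < n0 i := by
    intro i
    obtain ⟨x, hx⟩ := h0 i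
    have : 0 < (univ.filter (fun x => ¬ H i x)).card := card_pos.mpr ⟨x, by simp [hx]⟩
    simp only [hn0]; exact_mod_cast this
  have hN : ∀ i, n1 i + n0 i = (Fintype.card (V i) : ℝ) := by
    intro i
    have := Finset.card_filter_add_card_filter_not (s := (univ : Finset (V i))) (H i)
    simp only [hn1, hn0]
    rw [← Finset.card_univ]
    exact_mod_cast this
  have pN : ∀ i, 0 < (Fintype.card (V i) : ℝ) := fun i => by rw [← hN]; have := p1 i; have := p0 i; linarith
  -- weights
  set w : ∀ i, V i × V i → ℝ := fun i x => if ¬ H i x.1 ∧ H i x.2 then 1 / (n0 i * n1 i) else 0 with hw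
  have hw1 : ∀ i, ∑ x, w i x = 1 := by
    intro i
    simp only [hw]
    rw [← Finset.sum_filter, Finset.sum_const, nsmul_eq_mul]
    have : (univ.filter fun x : V i × V i => ¬ H i x.1 ∧ H i x.2) =
        (univ.filter fun x => ¬ H i x) ×ˢ (univ.filter fun x => H i x) := by
      ext x; simp
    rw [this, card_product, Nat.cast_mul]
    have h1' := p1 i; have h0' := p0 i
    simp only [hn1, hn0] at h1' h0' ⊢
    field_simp
  have hpN : ∀ i, p i = n1 i / (n1 i + n0 i) := fun i => by rw [hN, hp]
  have hpN' : ∀ i, 1 - p i = n0 i / (n1 i + n0 i) := by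
    intro i
    have h1' := p1 i; have h0' := p0 i
    rw [hpN]
    field_simp
    ring
  set f : ∀ i, V i × V i × Bool → V i := fun i x => if x.2.2 then x.2.1 else x.1 with hf
  set W : ∀ i, V i × V i × Bool → ℝ := fun i x => w i (x.1, x.2.1) * (if x.2.2 then p i else 1 - p i)
    with hW
  have key : ∀ i (v : V i), ∑ x ∈ univ.filter (fun x => f i x = v), W i x = 1 / (Fintype.card (V i) : ℝ) := by
    intro i v
    have h1' := p1 i; have h0' := p0 i
    rw [Finset.sum_filter, Fintype.sum_prod_type]
    simp only [Fintype.sum_prod_type, Fintype.sum_bool, hf, hW, if_true, Bool.false_eq_true, if_false]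
    have e1 : ∑ x : V i, ∑ y : V i, ((if y = v then w i (x, y) * p i else 0) +
        (if x = v then w i (x, y) * (1 - p i) else 0)) =
        (∑ x : V i, w i (x, v)) * p i + (∑ y : V i, w i (v, y)) * (1 - p i) := by
      simp only [sum_add_distrib]
      congr 1
      · rw [sum_mul]
        refine sum_congr rfl fun x _ => ?_
        simp
      · rw [sum_comm, sum_mul]
        refine sum_congr rfl fun x _ => ?_
        simp
    rw [e1]
    have e2 : ∑ x : V i, w i (x, v) = if H i v then 1 / n1 i else 0 := by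
      by_cases hv : H i v
      · simp only [hw, hv, and_true, if_true]
        rw [← Finset.sum_filter, Finset.sum_const, nsmul_eq_mul]
        show n0 i * _ = _
        field_simp
      · simp [hw, hv]
    have e3 : ∑ y : V i, w i (v, y) = if H i v then 0 else 1 / n0 i := by
      by_cases hv : H i v
      · simp [hw, hv]
      · simp only [hw, hv, not_false_eq_true, true_and, if_false]
        rw [← Finset.sum_filter, Finset.sum_const, nsmul_eq_mul]
        show n1 i * _ = _
        field_simp
    rw [e2, e3, hpN', hpN, ← hN]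
    by_cases hv : H i v
    · simp only [hv, if_true]; field_simp; ring
    · simp only [hv, if_false]; field_simp; ring
  have hpush := push f W G
  have e4 : ∑ v : ∀ i, V i, (∏ i, ∑ x ∈ univ.filter (fun x => f i x = v i), W i x) * G v =
      (∑ v, G v) / ∏ i, (Fintype.card (V i) : ℝ) := by
    rw [Finset.sum_div]
    refine sum_congr rfl fun v _ => ?_
    simp only [key]
    rw [Finset.prod_div_distrib, Finset.prod_const_one]
    ring
  rw [e4] at hpush
  let e : (∀ i, V i × V i × Bool) ≃ (∀ i, V i × V i) × (ι → Bool) :=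
    { toFun := fun ω => (fun i => ((ω i).1, (ω i).2.1), fun i => (ω i).2.2)
      invFun := fun t => fun i => ((t.1 i).1, (t.1 i).2, t.2 i)
      left_inv := fun _ => rfl
      right_inv := fun _ => rfl }
  have e5 : ∑ ω : ∀ i, V i × V i × Bool, (∏ i, W i (ω i)) * G (fun i => f i (ω i)) =
      ∑ t : (∀ i, V i × V i), (∏ i, w i (t i)) * ∑ η : ι → Bool,
        (∏ i, (if η i then p i else 1 - p i)) * G (fun i => if η i then (t i).2 else (t i).1) := by
    rw [← e.symm.sum_comp, Fintype.sum_prod_type]
    refine sum_congr rfl fun t _ => ?_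
    rw [mul_sum]
    refine sum_congr rfl fun η _ => ?_
    show (∏ i, w i (t i) * (if η i then p i else 1 - p i)) * G _ = _
    rw [Finset.prod_mul_distrib, mul_assoc]
    rfl
  have e6 : ∑ t : (∀ i, V i × V i), (∏ i, w i (t i)) * ∑ η : ι → Bool,
        (∏ i, (if η i then p i else 1 - p i)) * G (fun i => if η i then (t i).2 else (t i).1) ≤
      ∑ t : (∀ i, V i × V i), (∏ i, w i (t i)) * β := by
    refine sum_le_sum fun t _ => ?_
    have hw0 : ∀ i, 0 ≤ w i (t i) := by
      intro i
      have h1' := p1 i; have h0' := p0 i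
      simp only [hw]
      split_ifs
      · positivity
      · exact le_refl _
    by_cases ht : ∀ i, ¬ H i (t i).1 ∧ H i (t i).2
    · refine mul_le_mul_of_nonneg_left ?_ (Finset.prod_nonneg fun i _ => hw0 i)
      exact hG (fun i => (t i).1) (fun i => (t i).2) (fun i => (ht i).1) (fun i => (ht i).2)
    · obtain ⟨i, hi⟩ := not_forall.mp ht
      have : ∏ i, w i (t i) = 0 := by
        refine Finset.prod_eq_zero (mem_univ i) ?_
        simp only [hw]
        rw [if_neg hi]
      rw [this]; simp
  have e7 : ∑ t : (∀ i, V i × V i), (∏ i, w i (t i)) * β = β := by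
    rw [← sum_mul]
    have : ∑ t : (∀ i, V i × V i), (∏ i, w i (t i)) = ∏ i, ∑ x, w i x := by
      rw [Finset.prod_univ_sum, Fintype.piFinset_univ]
    rw [this]
    simp only [hw1, prod_const_one, one_mul]
  rw [e5] at hpush
  rw [e7] at e6
  have h9 : (∑ v, G v) / ∏ i, (Fintype.card (V i) : ℝ) ≤ β := by rw [← hpush]; exact e6
  have h10 : 0 < ∏ i, (Fintype.card (V i) : ℝ) := Finset.prod_pos fun i _ => pN i
  rwa [div_le_iff₀ h10] at h9

end mix

/-! ### Step 3: slots -/

section slots
variable {P : Polynomial ℕ} {X : Finset (List Bool)}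

/-- the questions -/
abbrev Qs (P : Polynomial ℕ) (X : Finset (List Bool)) : Type := Σ s : Slot P X, Fin (3 * s.m)

/-- the question -/
def qq (z : Qs P X) : List Bool := qst z.1.x z.1.w z.2

theorem pairBits_inj : ∀ {x x' w w' : List Bool}, pairBits x w = pairBits x' w' → x = x' ∧ w = w'
  | [], [], w, w', h => ⟨rfl, by simpa [pairBits] using h⟩
  | [], b :: x', w, w', h => by simp [pairBits] at h
  | b :: x, [], w, w', h => by simp [pairBits] at h
  | b :: x, b' :: x', w, w', h => by
    simp only [pairBits, List.flatMap_cons, List.cons_append, List.nil_append, List.cons.injEq,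
      true_and] at h
    obtain ⟨h1, h2⟩ := h
    obtain ⟨h3, h4⟩ := pairBits_inj (x := x) (x' := x') (w := w) (w' := w') h2
    exact ⟨by rw [h1, h3], h4⟩

theorem qst_inj {x x' w w' : List Bool} {i i' : ℕ} (hw : x = x' → w.length = w'.length)
    (h : qst x w i = qst x' w' i') : x = x' ∧ w = w' ∧ i = i' := by
  unfold qst at h
  obtain ⟨h2, h3⟩ := pairBits_inj h
  have h4 := List.append_inj h3 (hw h2)
  refine ⟨h2, h4.1, ?_⟩
  have := congrArg List.length h4.2
  simpa using this

theorem slot_ext {s s' : Slot P X} (hx : s.x = s'.x) (hw : s.w = s'.w) : s = s' := by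
  obtain ⟨⟨x, hxX⟩, w⟩ := s
  obtain ⟨⟨x', hxX'⟩, w'⟩ := s'
  simp only [Slot.x] at hx
  subst hx
  simp only [Slot.w] at hw
  have := List.ofFn_injective hw
  rw [this]

theorem w_length (s : Slot P X) : s.w.length = s.m := by
  simp [Slot.w, Slot.m]

theorem m_eq (s : Slot P X) : s.m = P.eval s.x.length := rfl

theorem qq_slot {s s' : Slot P X} {i i' : ℕ} (h : qst s.x s.w i = qst s'.x s'.w i') :
    s = s' ∧ i = i' := by
  obtain ⟨h1, h2, h3⟩ := qst_inj (fun hx => by rw [w_length, w_length, m_eq, m_eq, hx]) h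
  exact ⟨slot_ext h1 h2, h3⟩

theorem qq_inj : Function.Injective (qq : Qs P X → List Bool) := by
  rintro ⟨s, i⟩ ⟨s', i'⟩ h
  obtain ⟨h1, h2⟩ := qq_slot h
  subst h1
  have : i = i' := Fin.ext h2
  rw [this]

theorem mrg_at (B : Oracle) (vm vp : Slot P X → ℕ → Bool) (η : Slot P X → Bool) (k : Qs P X) :
    mrg B vm vp η (qq k) = if η k.1 then vp k.1 k.2 else vm k.1 k.2 := by
  have h : ∃ z : Slot P X × ℕ, z.2 < 3 * z.1.m ∧ qq k = qst z.1.x z.1.w z.2 :=
    ⟨(k.1, k.2.1), k.2.2, rfl⟩
  unfold mrg
  rw [dif_pos h]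
  obtain ⟨h1, h2⟩ := h.choose_spec
  obtain ⟨h3, h4⟩ := qq_slot h2
  rw [← h3, ← h4]

theorem mrg_off (B : Oracle) (vm vp : Slot P X → ℕ → Bool) (η : Slot P X → Bool) (y : List Bool)
    (hy : ¬ ∃ k : Qs P X, qq k = y) : mrg B vm vp η y = B y := by
  unfold mrg
  rw [dif_neg]
  rintro ⟨z, hz1, hz2⟩
  exact hy ⟨⟨z.1, ⟨z.2, hz1⟩⟩, hz2.symm⟩

theorem ovr_at (B : Oracle) (v : Qs P X → Bool) (k : Qs P X) : ovr qq B v (qq k) = v k := by
  have h : ∃ k' : Qs P X, qq k' = qq k := ⟨k, rfl⟩
  unfold ovr
  rw [dif_pos h]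
  rw [qq_inj h.choose_spec]

theorem mrg_eq (B : Oracle) (a b : ∀ s : Slot P X, Fin (3 * s.m) → Bool) (η : Slot P X → Bool) :
    mrg B (fun s i => if h : i < 3 * s.m then a s ⟨i, h⟩ else false)
      (fun s i => if h : i < 3 * s.m then b s ⟨i, h⟩ else false) η =
    ovr qq B (fun k : Qs P X => (if η k.1 then b k.1 else a k.1) k.2) := by
  funext y
  by_cases hy : ∃ k : Qs P X, qq k = y
  · obtain ⟨k, rfl⟩ := hy
    rw [mrg_at, ovr_at]
    simp only [k.2.2, dif_pos]
    split_ifs <;> rfl
  · rw [mrg_off _ _ _ _ _ hy]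
    unfold ovr
    rw [dif_neg hy]

/-- hits -/
def Hs (s : Slot P X) (v : Fin (3 * s.m) → Bool) : Prop :=
  valB (List.ofFn v) * (valB (s.w ++ [true]) + 1) < 2 ^ (3 * s.m)

theorem hit_iff (s : Slot P X) (a : Fin (3 * s.m) → Bool) :
    HitV s.m s.w (fun i => if h : i < 3 * s.m then a ⟨i, h⟩ else false) ↔ Hs s a := by
  unfold HitV Hs
  have : (List.range (3 * s.m)).map (fun i => if h : i < 3 * s.m then a ⟨i, h⟩ else false) =
      List.ofFn a := by
    apply List.ext_getElem
    · simp
    · intro i h1 h2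
      simp at h1
      simp [h1]
  rw [this]

theorem valB_replicate_false (n : ℕ) : valB (List.replicate n false) = 0 := by
  induction n with
  | zero => rfl
  | succ n ih => rw [List.replicate_succ, valB_cons, ih]; rfl

theorem valB_replicate_true (n : ℕ) : valB (List.replicate n true) + 1 = 2 ^ n := by
  induction n with
  | zero => rfl
  | succ n ih =>
    rw [List.replicate_succ, valB_cons, pow_succ, ← ih]
    simp; ring

theorem ex_hit (s : Slot P X) : ∃ a, Hs s a := by
  refine ⟨fun _ => false, ?_⟩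
  unfold Hs
  rw [List.ofFn_const, valB_replicate_false]
  simp

theorem ex_nhit (s : Slot P X) (hm : 1 ≤ s.m) : ∃ a, ¬ Hs s a := by
  refine ⟨fun _ => true, ?_⟩
  unfold Hs
  rw [List.ofFn_const, not_lt]
  have h1 := valB_replicate_true (3 * s.m)
  have h2 : 2 ≤ valB (s.w ++ [true]) := by
    rw [valB_append, w_length]
    have : 2 ^ 1 ≤ 2 ^ s.m := Nat.pow_le_pow_right (by norm_num) hm
    simp; omega
  have h3 : 2 ^ 1 ≤ 2 ^ (3 * s.m) := Nat.pow_le_pow_right (by norm_num) (by omega)
  nlinarith

end slots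

theorem t_resample : St_resample := by
  classical
  intro P X E β hE hP h
  refine resample (qq : Qs P X → List Bool) E hE (ENNReal.ofReal β) fun B => ?_
  set G : (∀ s : Slot P X, Fin (3 * s.m) → Bool) → ℝ := fun v =>
    if ovr qq B (fun k : Qs P X => v k.1 k.2) ∈ E then 1 else 0 with hG
  have hV : ∀ s : Slot P X, (Fintype.card (Fin (3 * s.m) → Bool) : ℝ) = 2 ^ (3 * s.m) := by
    intro s; simp
  have hmix := mix (ι := Slot P X) (V := fun s => Fin (3 * s.m) → Bool) (fun s => Hs s) G β
    (fun s => prv s.m s.w) (fun s => by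
      rw [hV]
      unfold prv
      congr 1
      rw [Nat.card_eq_fintype_card, Fintype.card_subtype]
      congr 2
      ext x
      simp [Hs]) (fun s => ex_hit s) (fun s => ex_nhit s (hP _)) (fun a b ha hb => by
      have h1 := h B (fun s i => if h : i < 3 * s.m then a s ⟨i, h⟩ else false)
        (fun s i => if h : i < 3 * s.m then b s ⟨i, h⟩ else false)
        (fun s => by rw [hit_iff]; exact ha s) (fun s => by rw [hit_iff]; exact hb s)
      refine le_trans (le_of_eq ?_) h1
      unfold PrB
      refine sum_congr (by ext x; simp) fun η _ => ?_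
      beta_reduce
      rw [mrg_eq]
      simp only [hG]
      split_ifs <;> simp)
  have e : (∀ k : Qs P X, Bool) ≃ (∀ s : Slot P X, Fin (3 * s.m) → Bool) :=
    Equiv.piCurry (fun _ _ => Bool)
  have h1 : ∑ v, G v = ((univ.filter fun v : Qs P X → Bool => ovr qq B v ∈ E).card : ℝ) := by
    rw [← (Equiv.piCurry (fun (s : Slot P X) (_ : Fin (3 * s.m)) => Bool)).sum_comp]
    simp only [hG]
    rw [Finset.sum_boole]
    rfl
  have h2 : ∏ s : Slot P X, (Fintype.card (Fin (3 * s.m) → Bool) : ℝ) =
      (Fintype.card (Qs P X → Bool) : ℝ) := by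
    rw [Fintype.card_congr e, Fintype.card_pi]
    push_cast
    rfl
  rw [h1, h2] at hmix
  rw [← ENNReal.ofReal_natCast, ← ENNReal.ofReal_natCast, ← ENNReal.ofReal_mul' (by positivity)]
  exact ENNReal.ofReal_le_ofReal hmix

end Pool.Agent.H431R2.KM
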